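import Mathlib
import Pool.Agent.J4H16.AS.Defs

/-!
# Project AS: lifts by iterates on convex domains, and their uniqueness (LIFT, UNIQ)
-/

set_option autoImplicit false
open Set Filter Topology Metric Complex

namespace Pool.Agent.J4H73.AS

open Pool.Agent.J4H16 Pool.Agent.J4H16.AS Pool.Agent.W746.LD

/-- A continuous logarithm of a holomorphic function is holomorphic. -/
theorem log_diff {V : Set ℂ} (hV : IsOpen V) {g h : ℂ → ℂ} (hg : ContinuousOn g V)
    (hh : DifferentiableOn ℂ h V) (he : ∀ w ∈ V, Complex.exp (g w) = h w) :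
    DifferentiableOn ℂ g V := by
  intro z0 hz0
  have hV0 : V ∈ 𝓝 z0 := hV.mem_nhds hz0
  have h0 : h z0 ≠ 0 := by rw [← he z0 hz0]; exact Complex.exp_ne_zero _
  have hd : DifferentiableAt ℂ h z0 := hh.differentiableAt hV0
  have hL : DifferentiableAt ℂ (fun z => Complex.log (h z / h z0) + g z0) z0 := by
    apply DifferentiableAt.add_const
    apply DifferentiableAt.clog (hd.div_const _)
    rw [div_self h0]
    exact Complex.one_mem_slitPlane
  have hc : ContinuousAt g z0 := hg.continuousAt hV0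
  have hev : ∀ᶠ z in 𝓝 z0, ‖g z - g z0‖ < Real.pi := by
    have := Metric.tendsto_nhds.mp hc Real.pi Real.pi_pos
    simpa [dist_eq_norm] using this
  have heq : g =ᶠ[𝓝 z0] (fun z => Complex.log (h z / h z0) + g z0) := by
    filter_upwards [hev, hV0] with z hz hzV
    have h1 : h z / h z0 = Complex.exp (g z - g z0) := by
      rw [Complex.exp_sub, he z hzV, he z0 hz0]
    have h2 := abs_lt.mp ((Complex.abs_im_le_norm (g z - g z0)).trans_lt hz)
    rw [h1, Complex.log_exp h2.1 h2.2.le]
    ring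
  exact (hL.congr_of_eventuallyEq heq).differentiableWithinAt

/-- Holomorphic logarithms on convex domains. -/
theorem exists_log_convex {V : Set ℂ} (hV : IsOpen V) (hc : Convex ℝ V) (hne : V.Nonempty)
    {h : ℂ → ℂ} (hh : DifferentiableOn ℂ h V) (h0 : ∀ w ∈ V, h w ≠ 0) :
    ∃ g : ℂ → ℂ, DifferentiableOn ℂ g V ∧ ∀ w ∈ V, Complex.exp (g w) = h w := by
  have hs : IsSimplyConnected V := by
    have := hc.contractibleSpace hne
    exact (inferInstance : SimplyConnectedSpace V)
  obtain ⟨g, hg, he⟩ := Complex.exists_continuousOn_eqOn_exp_comp hs hV hh.continuousOn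
    (by rintro ⟨w, hw, hw0⟩; exact h0 w hw hw0)
  exact ⟨g, log_diff hV hg hh he, he⟩

/-- Holomorphic roots on convex domains. -/
theorem exists_root_convex {V : Set ℂ} (hV : IsOpen V) (hc : Convex ℝ V) {w0 : ℂ} (hw0 : w0 ∈ V)
    {h : ℂ → ℂ} (hh : DifferentiableOn ℂ h V) (h0 : ∀ w ∈ V, h w ≠ 0) {n : ℕ} (hn : n ≠ 0)
    {z : ℂ} (hz : z ^ n = h w0) :
    ∃ g : ℂ → ℂ, DifferentiableOn ℂ g V ∧ g w0 = z ∧ ∀ w ∈ V, g w ^ n = h w := by
  obtain ⟨l, hl, he⟩ := exists_log_convex hV hc ⟨w0, hw0⟩ hh h0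
  have hn0 : (n : ℂ) ≠ 0 := by exact_mod_cast hn
  refine ⟨fun w => z * Complex.exp ((l w - l w0) / n), ?_, ?_, ?_⟩
  · exact ((hl.sub_const _).div_const _).cexp.const_mul z
  · simp
  · intro w hw
    simp only
    rw [mul_pow, hz, ← Complex.exp_nat_mul, mul_div_cancel₀ _ hn0, Complex.exp_sub, he w hw,
      he w0 hw0, mul_div_cancel₀ _ (h0 w0 hw0)]

theorem orb_c_eq {n : ℕ} {c : ℂ} (hn : 2 ≤ n) (j : ℕ) : orb n c c j = orb n c 0 (j + 1) := by
  rw [add_comm, orb_add, orb_one, zero_pow (by omega), zero_add]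

theorem t_LIFT : S_LIFT := by
  intro n c m V E w0 y hn hV hc hw0 hE hPC hy
  have key : ∀ j ≤ m, ∃ H : ℂ → ℂ, DifferentiableOn ℂ H V ∧ H w0 = orb n c y (m - j) ∧
      ∀ w ∈ V, orb n c (H w) j = E w := by
    intro j
    induction j with
    | zero =>
      intro _
      exact ⟨E, hE, by rw [Nat.sub_zero, hy], fun w _ => rfl⟩
    | succ j ih =>
      intro hj
      obtain ⟨H, h1, h2, h3⟩ := ih (by omega)
      have hne : ∀ w ∈ V, H w - c ≠ 0 := by
        intro w hw h4
        apply hPC w hw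
        rw [← h3 w hw, sub_eq_zero.mp h4, orb_c_eq hn]
        exact orb_mem_PC (by omega)
      obtain ⟨g, g1, g2, g3⟩ := exists_root_convex hV hc hw0 (h1.sub_const c) hne
        (n := n) (by omega) (z := orb n c y (m - (j + 1))) (by
          rw [h2, eq_sub_iff_add_eq, ← orb_succ]
          congr 1
          omega)
      refine ⟨g, g1, g2, ?_⟩
      intro w hw
      rw [add_comm j 1, orb_add, orb_one, g3 w hw, sub_add_cancel, h3 w hw]
  obtain ⟨H, h1, h2, h3⟩ := key m le_rfl
  exact ⟨H, h1, by simpa using h2, h3⟩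

theorem t_UNIQ : S_UNIQ := by
  intro n c m V E H1 H2 w0 hn hV hc hw0 hPC hd1 hd2 he1 he2 h0
  have hnz : ∀ w ∈ V, ∀ i < m, orb n c (H2 w) i ≠ 0 := by
    intro w hw i hi h4
    apply hPC w hw
    have h5 : orb n c (H2 w) (i + (m - i)) = orb n c (orb n c (H2 w) i) (m - i) := orb_add _ _ _
    rw [Nat.add_sub_cancel' hi.le, he2 w hw, h4] at h5
    rw [h5]
    exact orb_mem_PC (by omega)
  have key : ∀ j ≤ m, ∀ w ∈ V, orb n c (H1 w) (m - j) = orb n c (H2 w) (m - j) := by
    intro j
    induction j with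
    | zero =>
      intro _ w hw
      rw [Nat.sub_zero, he1 w hw, he2 w hw]
    | succ j ih =>
      intro hj
      have h1 := ih (by omega)
      refine pow_unique hn hV hc ((differentiable_orb _).comp_differentiableOn hd1)
        ((differentiable_orb _).comp_differentiableOn hd2) ?_ ?_ hw0 ?_
      · intro w hw
        have h2 := h1 w hw
        have h3 : m - j = (m - (j + 1)) + 1 := by omega
        rw [h3, orb_succ, orb_succ] at h2
        exact add_right_cancel h2
      · intro w hw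
        exact hnz w hw _ (by omega)
      · rw [h0]
  intro w hw
  have := key m le_rfl w hw
  simpa using this

end Pool.Agent.J4H73.AS
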