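import Mathlib
import Pool.Agent.J4H16.AS.Defs

/-!
# Project AS: Montel's theorem along an ultrafilter (MONT)
-/

set_option autoImplicit false
open Set Filter Topology Metric Complex

namespace Pool.Agent.J4H73.AS

/-- Lipschitz bound from Cauchy's estimate. -/
theorem cauchy_lip {f : ℂ → ℂ} {V : Set ℂ} {z0 : ℂ} {r B : ℝ} (hr : 0 < r)
    (hV : IsOpen V) (hf : DifferentiableOn ℂ f V)
    (hsub : closedBall z0 (2 * r) ⊆ V) (hB : ∀ z ∈ closedBall z0 (2 * r), ‖f z‖ ≤ B)
    {z w : ℂ} (hz : z ∈ ball z0 r) (hw : w ∈ ball z0 r) :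
    ‖f w - f z‖ ≤ B / r * ‖w - z‖ := by
  have hcb : ∀ x ∈ ball z0 r, closedBall x r ⊆ closedBall z0 (2 * r) := by
    intro x hx y hy
    rw [mem_closedBall] at hy ⊢
    rw [mem_ball] at hx
    have := dist_triangle y x z0
    linarith
  refine Convex.norm_image_sub_le_of_norm_deriv_le (s := ball z0 r) ?_ ?_ (convex_ball z0 r) hz hw
  · intro x hx
    exact hf.differentiableAt (hV.mem_nhds (hsub (hcb x hx (mem_closedBall_self hr.le))))
  · intro x hx
    exact Complex.norm_deriv_le_of_forall_mem_sphere_norm_le hr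
      (hf.diffContOnCl_ball ((hcb x hx).trans hsub))
      (fun y hy => hB y (hcb x hx (sphere_subset_closedBall hy)))

theorem mont (U : Ultrafilter ℕ) (F : ℕ → ℂ → ℂ) (V : Set ℂ) (hV : IsOpen V)
    (hF : ∀ᶠ j in (U : Filter ℕ), DifferentiableOn ℂ (F j) V)
    (hB : ∀ K ⊆ V, IsCompact K → ∃ B : ℝ, ∀ᶠ j in (U : Filter ℕ), ∀ z ∈ K, ‖F j z‖ ≤ B) :
    ∃ G : ℂ → ℂ, DifferentiableOn ℂ G V ∧ TendstoLocallyUniformlyOn F G (U : Filter ℕ) V := by
  classical
  have hlim : ∀ z : ℂ, ∃ y : ℂ, z ∈ V → Tendsto (fun j => F j z) U (𝓝 y) := by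
    intro z
    by_cases hz : z ∈ V
    · obtain ⟨B, hB⟩ := hB {z} (singleton_subset_iff.mpr hz) isCompact_singleton
      have h1 : ((U.map (fun j => F j z) : Ultrafilter ℂ) : Filter ℂ) ≤ 𝓟 (closedBall 0 B) := by
        rw [le_principal_iff, Ultrafilter.coe_map, mem_map]
        filter_upwards [hB] with j hj
        simpa using hj z rfl
      obtain ⟨y, -, hy⟩ := (isCompact_closedBall (0 : ℂ) B).ultrafilter_le_nhds _ h1
      exact ⟨y, fun _ => hy⟩
    · exact ⟨0, fun h => absurd h hz⟩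
  choose G hG using hlim
  have hT : TendstoLocallyUniformlyOn F G (U : Filter ℕ) V := by
    rw [Metric.tendstoLocallyUniformlyOn_iff]
    intro ε hε z0 hz0
    obtain ⟨R, hR, hRV⟩ := Metric.isOpen_iff.mp hV z0 hz0
    set r : ℝ := R / 4 with hr
    have hr0 : 0 < r := by positivity
    have hsub : closedBall z0 (2 * r) ⊆ V :=
      (closedBall_subset_ball (by rw [hr]; linarith)).trans hRV
    obtain ⟨B, hBj⟩ := hB _ hsub (isCompact_closedBall z0 (2 * r))
    set L : ℝ := |B| / r + 1 with hL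
    have hL0 : 0 < L := by positivity
    have hz0b : z0 ∈ ball z0 r := mem_ball_self hr0
    set d : ℝ := min r (ε / (4 * L)) with hd
    have hd0 : 0 < d := by positivity
    have hlip : ∀ᶠ j in (U : Filter ℕ), ∀ z ∈ ball z0 r, ‖F j z - F j z0‖ ≤ L * ‖z - z0‖ := by
      filter_upwards [hF, hBj] with j h1 h2 z hz
      have h3 := cauchy_lip hr0 hV h1 hsub h2 hz0b hz
      refine h3.trans ?_
      apply mul_le_mul_of_nonneg_right _ (norm_nonneg _)
      rw [hL]
      have : B / r ≤ |B| / r := by gcongr; exact le_abs_self B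
      linarith
    have hlipG : ∀ z ∈ ball z0 r, ‖G z - G z0‖ ≤ L * ‖z - z0‖ := by
      intro z hz
      have hzV : z ∈ V := hsub (ball_subset_closedBall (ball_subset_ball (by linarith) hz))
      have h1 : Tendsto (fun j => ‖F j z - F j z0‖) U (𝓝 ‖G z - G z0‖) :=
        ((hG z hzV).sub (hG z0 hz0)).norm
      refine le_of_tendsto h1 ?_
      filter_upwards [hlip] with j hj using hj z hz
    refine ⟨ball z0 d, mem_nhdsWithin_of_mem_nhds (ball_mem_nhds z0 hd0), ?_⟩
    have h0 := Metric.tendsto_nhds.mp (hG z0 hz0) (ε / 4) (by positivity)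
    filter_upwards [hlip, h0] with j h1 h2 z hz
    rw [mem_ball, dist_eq_norm] at hz
    have hzr : z ∈ ball z0 r := by
      rw [mem_ball, dist_eq_norm]
      exact hz.trans_le (min_le_left _ _)
    have hzd : ‖z - z0‖ < ε / (4 * L) := hz.trans_le (min_le_right _ _)
    have hLz : L * ‖z - z0‖ < ε / 4 := by
      calc L * ‖z - z0‖ < L * (ε / (4 * L)) := by gcongr
        _ = ε / 4 := by field_simp
    have e1 := h1 z hzr
    have e2 := hlipG z hzr
    rw [dist_eq_norm] at h2
    rw [dist_eq_norm]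
    have e3 : G z - F j z = (G z - G z0) - (F j z0 - G z0) - (F j z - F j z0) := by ring
    rw [e3]
    calc ‖(G z - G z0) - (F j z0 - G z0) - (F j z - F j z0)‖
        ≤ ‖(G z - G z0) - (F j z0 - G z0)‖ + ‖F j z - F j z0‖ := norm_sub_le _ _
      _ ≤ ‖G z - G z0‖ + ‖F j z0 - G z0‖ + ‖F j z - F j z0‖ := by
          gcongr; exact norm_sub_le _ _
      _ < ε := by linarith
  exact ⟨G, hT.differentiableOn hF hV, hT⟩

theorem t_MONT : Pool.Agent.J4H16.AS.S_MONT :=
  fun U F V hV hF hB => mont U F V hV hF hB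

end Pool.Agent.J4H73.AS
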