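import Mathlib
import Pool.Agent.J4H73.AS.Lift

/-!
# Project AS: the lift of the exponential parametrization of a free annulus (ROT)
-/

set_option autoImplicit false
open Set Filter Topology Metric Complex

namespace Pool.Agent.J4H73.AS

open Pool.Agent.J4H16 Pool.Agent.J4H16.AS Pool.Agent.W746.LD

theorem isOpen_strip (δ : ℝ) : IsOpen (strip δ) :=
  isOpen_lt (Complex.continuous_re.abs) continuous_const

theorem convex_strip (δ : ℝ) : Convex ℝ (strip δ) := by
  have h : strip δ = {w : ℂ | w.re < δ} ∩ {w : ℂ | -δ < w.re} := by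
    ext w
    simp only [strip, mem_ofPred_eq, mem_inter_iff, abs_lt]
    tauto
  rw [h]
  exact (convex_halfSpace_re_lt δ).inter (convex_halfSpace_re_gt (-δ))

/-- The zero of an injective function factors out, the quotient is an exponential. -/
theorem factor_zero {h : ℂ → ℂ} {c v : ℂ} (hd : DifferentiableOn ℂ h (ball 0 1))
    (hin : InjOn h (ball 0 1)) (hv : v ∈ ball (0 : ℂ) 1) (hvc : h v = c)
    (hdv : deriv h v ≠ 0) :
    ∃ l : ℂ → ℂ, DifferentiableOn ℂ l (ball 0 1) ∧
      ∀ ζ ∈ ball (0 : ℂ) 1, h ζ - c = (ζ - v) * Complex.exp (l ζ) := by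
  have h1 : DifferentiableOn ℂ (dslope h v) (ball 0 1) :=
    (Complex.differentiableOn_dslope (isOpen_ball.mem_nhds hv)).mpr hd
  have h2 : ∀ ζ ∈ ball (0 : ℂ) 1, dslope h v ζ ≠ 0 := by
    intro ζ hζ h3
    rcases eq_or_ne ζ v with rfl | hne
    · rw [dslope_same] at h3
      exact hdv h3
    · rw [dslope_of_ne _ hne, slope_def_field, div_eq_zero_iff] at h3
      rcases h3 with h3 | h3
      · exact hne (hin hζ hv (sub_eq_zero.mp h3))
      · exact hne (sub_eq_zero.mp h3)
  obtain ⟨l, hl, he⟩ := exists_log_convex isOpen_ball (convex_ball (0 : ℂ) 1) ⟨v, hv⟩ h1 h2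
  refine ⟨l, hl, ?_⟩
  intro ζ hζ
  rw [he ζ hζ, ← hvc]
  have := sub_smul_dslope h v ζ
  rw [smul_eq_mul] at this
  exact this.symm

theorem t_ROT : S_ROT := by
  classical
  intro n c a ρ δ m H hn hρ hδ hδ1 hfree hH hHe
  have h1δ : (0 : ℝ) < 1 + δ := by linarith
  set V : Set ℂ := strip (Real.log (1 + δ)) with hVdef
  have hVo : IsOpen V := isOpen_strip _
  have hVc : Convex ℝ V := convex_strip _
  have hlogpos : 0 < Real.log (1 + δ) := Real.log_pos (by linarith)
  have h0V : (0 : ℂ) ∈ V := by
    rw [hVdef]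
    simp only [strip, mem_ofPred_eq, zero_re, abs_zero]
    exact hlogpos
  -- bounds on the exponential
  have hex : ∀ w ∈ V, ‖Complex.exp w‖ < 1 + δ ∧ ‖Complex.exp (-w)‖ < 1 + δ := by
    intro w hw
    rw [hVdef] at hw
    simp only [strip, mem_ofPred_eq, abs_lt] at hw
    constructor
    · rw [Complex.norm_exp, ← Real.exp_log h1δ]
      exact Real.exp_lt_exp.mpr hw.2
    · rw [Complex.norm_exp, ← Real.exp_log h1δ, neg_re]
      exact Real.exp_lt_exp.mpr (by linarith)
  have hnorm1 : ‖((1 + δ : ℝ) : ℂ)‖ = 1 + δ := by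
    rw [Complex.norm_real, Real.norm_of_nonneg h1δ.le]
  have hδc : ((1 + δ : ℝ) : ℂ) ≠ 0 := by
    rw [← norm_pos_iff, hnorm1]; exact h1δ
  have hδc' : (1 + (δ : ℂ)) ≠ 0 := by
    have := hδc
    push_cast at this
    exact this
  have hnorm1' : ‖(1 + (δ : ℂ))‖ = 1 + δ := by
    have := hnorm1
    push_cast at this
    exact this
  -- the map to the disc
  set e : ℂ → ℂ := fun w => Complex.exp w / (1 + δ) with he
  have heb : ∀ w ∈ V, e w ∈ ball (0 : ℂ) 1 := by
    intro w hw
    rw [mem_ball_zero_iff, he]
    simp only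
    rw [norm_div, hnorm1', div_lt_one h1δ]
    exact (hex w hw).1
  have hed : DifferentiableOn ℂ e V := by
    intro w hw
    exact ((Complex.differentiable_exp w).div_const _).differentiableWithinAt
  set φ : ℂ → ℂ := fun ζ => a + ρ * (1 + δ) * ζ with hφ
  have hρc : (ρ : ℂ) ≠ 0 := by exact_mod_cast hρ.ne'
  have hφe : ∀ w, φ (e w) = a + ρ * Complex.exp w := by
    intro w
    simp only [hφ, he]
    field_simp
  have hφu : Univ φ 0 1 := by
    constructor
    · intro z _
      simp only [hφ]
      fun_prop
    · intro x _ y _ hxy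
      simp only [hφ] at hxy
      have h3 := add_left_cancel hxy
      exact mul_left_cancel₀ (mul_ne_zero hρc hδc') h3
  -- the values of E avoid PC
  have hEPC : ∀ w ∈ V, a + ρ * Complex.exp w ∉ PC n c := by
    intro w hw hmem
    apply hfree _ hmem
    rw [add_sub_cancel_left, norm_mul, Complex.norm_real, Real.norm_of_nonneg hρ.le]
    constructor
    · have h3 : 1 ≤ (1 + δ) * ‖Complex.exp w‖ := by
        have h4 : ‖Complex.exp w‖ * ‖Complex.exp (-w)‖ = 1 := by
          rw [← norm_mul, ← Complex.exp_add, add_neg_cancel, Complex.exp_zero, norm_one]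
        calc (1 : ℝ) = ‖Complex.exp (-w)‖ * ‖Complex.exp w‖ := by rw [mul_comm, h4]
          _ ≤ (1 + δ) * ‖Complex.exp w‖ := by gcongr; exact (hex w hw).2.le
      have h5 : (1 - δ) < ‖Complex.exp w‖ := by
        by_contra hcon
        push Not at hcon
        have : (1 + δ) * ‖Complex.exp w‖ ≤ (1 + δ) * (1 - δ) := by gcongr
        nlinarith
      gcongr
    · gcongr
      exact (hex w hw).1
  have hEd : DifferentiableOn ℂ (fun w => a + ρ * Complex.exp w) V := by
    intro w _
    exact (((Complex.differentiable_exp w).const_mul _).const_add _).differentiableWithinAt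
  -- uniqueness of the lifts along the annulus
  have huniq : ∀ (j : ℕ) (h : ℂ → ℂ), j ≤ m → Lf n c j φ h →
      h (e 0) = orb n c (H 0) (m - j) → ∀ w ∈ V, orb n c (H w) (m - j) = h (e w) := by
    intro j h hj hh h0
    apply t_UNIQ n c j V (fun w => a + ρ * Complex.exp w) _ (fun w => h (e w)) 0 hn hVo
      hVc.isPreconnected h0V hEPC ((differentiable_orb _).comp_differentiableOn hH)
      (hh.diff.comp hed heb)
    · intro w hw
      show orb n c (orb n c (H w) (m - j)) j = _
      rw [← orb_add, Nat.sub_add_cancel hj, hHe w hw]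
    · intro w hw
      show orb n c (h (e w)) j = _
      rw [hh.eq _ (heb w hw), hφe]
    · exact h0.symm
  by_cases hall : ∀ j < m, ∀ h, Lf n c j φ h → h (e 0) = orb n c (H 0) (m - j) →
      ∀ w ∈ ball (0 : ℂ) 1, h w ≠ c
  · left
    obtain ⟨h, hh, h0⟩ := exists_lf hn hφu (heb 0 h0V) (x := H 0) (k := m) (by
      rw [hφe, hHe 0 h0V]) hall
    refine ⟨h, hh, ?_⟩
    intro w hw
    have := huniq m h le_rfl hh (by rw [h0, Nat.sub_self, orb_zero]) w hw
    rw [Nat.sub_self, orb_zero] at this
    exact this
  · right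
    push Not at hall
    obtain ⟨j, hj, h, hh, h0, v, hv, hvc⟩ := hall
    have hkey := huniq j h hj.le hh h0
    -- the position of `v`
    have hv1 : ‖v‖ < 1 := by simpa using hv
    have hv2 : ‖v‖ * (1 + δ) ≤ 1 - δ := by
      have h3 : φ v ∈ PC n c := by
        rw [← hh.eq v hv, hvc, orb_c_eq hn]
        exact orb_mem_PC (by omega)
      by_contra hcon
      push Not at hcon
      apply hfree _ h3
      have h4 : ‖φ v - a‖ = ρ * (‖v‖ * (1 + δ)) := by
        simp only [hφ]
        rw [add_sub_cancel_left, norm_mul, norm_mul, hnorm1', Complex.norm_real,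
          Real.norm_of_nonneg hρ.le]
        ring
      rw [h4]
      constructor
      · gcongr
      · gcongr
        nlinarith
    -- the derivative at `v`
    have hin := hh.injOn hφu
    have hdv : deriv h v ≠ 0 := by
      intro h3
      have h4 : HasDerivAt h (deriv h v) v :=
        (hh.diff.differentiableAt (isOpen_ball.mem_nhds hv)).hasDerivAt
      have h5 : HasDerivAt (fun ζ => orb n c (h ζ) j) (P n c (h v) j * deriv h v) v :=
        (hasDerivAt_orb (n := n) (c := c) (h v) j).comp v h4
      have h6 : (fun ζ => orb n c (h ζ) j) =ᶠ[𝓝 v] φ := by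
        filter_upwards [isOpen_ball.mem_nhds hv] with u hu using hh.eq u hu
      have h7 : HasDerivAt φ (ρ * (1 + δ)) v := by
        simp only [hφ]
        simpa using ((hasDerivAt_id v).const_mul ((ρ : ℂ) * (1 + δ))).const_add a
      have h8 := h5.unique (h7.congr_of_eventuallyEq h6)
      rw [h3, mul_zero] at h8
      exact mul_ne_zero hρc hδc' h8.symm
    obtain ⟨l, hl, hle⟩ := factor_zero hh.diff hin hv hvc hdv
    -- the argument of the logarithm
    set q : ℂ → ℂ := fun w => 1 - v * (1 + δ) * Complex.exp (-w) with hq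
    have hqs : ∀ w ∈ V, q w ∈ Complex.slitPlane := by
      intro w hw
      have h3 : ‖v * (1 + δ) * Complex.exp (-w)‖ < 1 := by
        rw [norm_mul, norm_mul, hnorm1']
        calc ‖v‖ * (1 + δ) * ‖Complex.exp (-w)‖ ≤ (1 - δ) * (1 + δ) := by
              apply mul_le_mul hv2 (hex w hw).2.le (norm_nonneg _) (by linarith)
          _ < 1 := by nlinarith
      left
      simp only [hq, sub_re, one_re]
      have := (Complex.re_le_norm (v * (1 + δ) * Complex.exp (-w)))
      linarith
    have hqd : DifferentiableOn ℂ q V := by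
      intro w _
      simp only [hq]
      have : Differentiable ℂ (fun w : ℂ => 1 - v * (1 + δ) * Complex.exp (-w)) := by fun_prop
      exact (this w).differentiableWithinAt
    -- the model
    set L : ℂ → ℂ := fun w => w + Complex.log (q w) + l (e w) - Complex.log (1 + δ) with hL
    set S : ℂ → ℂ := fun w => Complex.exp (L w / n) with hS
    have hn0 : (n : ℂ) ≠ 0 := by exact_mod_cast (by omega : n ≠ 0)
    have hLd : DifferentiableOn ℂ L V :=
      ((differentiableOn_id.add (hqd.clog hqs)).add (hl.comp hed heb)).sub_const _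
    have hSd : DifferentiableOn ℂ S V := (hLd.div_const _).cexp
    have hSn : ∀ w ∈ V, S w ^ n = h (e w) - c := by
      intro w hw
      rw [hle _ (heb w hw)]
      simp only [hS]
      rw [← Complex.exp_nat_mul, mul_div_cancel₀ _ hn0]
      simp only [hL]
      rw [Complex.exp_sub, Complex.exp_add, Complex.exp_add,
        Complex.exp_log (Complex.slitPlane_ne_zero (hqs w hw)), Complex.exp_log hδc']
      simp only [hq, he]
      have h3 : Complex.exp (-w) = (Complex.exp w)⁻¹ := Complex.exp_neg w
      have h4 := Complex.exp_ne_zero w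
      rw [h3]
      field_simp
    set k : ℕ := m - j - 1 with hk
    set T : ℂ → ℂ := fun w => orb n c (H w) k with hT
    have hTd : DifferentiableOn ℂ T V := (differentiable_orb _).comp_differentiableOn hH
    have hTn : ∀ w ∈ V, T w ^ n = h (e w) - c := by
      intro w hw
      rw [← hkey w hw, eq_sub_iff_add_eq]
      simp only [hT]
      rw [← orb_succ]
      congr 1
      omega
    have hS0 : ∀ w, S w ≠ 0 := fun w => Complex.exp_ne_zero _
    have hT0 : ∀ w ∈ V, T w ≠ 0 := by
      intro w hw h3
      have h4 := hTn w hw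
      rw [← hSn w hw, h3, zero_pow (by omega)] at h4
      exact pow_ne_zero n (hS0 w) h4.symm
    set κ : ℂ := T 0 / S 0 with hκ
    have hκn : κ ^ n = 1 := by
      rw [hκ, div_pow, hTn 0 h0V, hSn 0 h0V, div_self]
      rw [← hSn 0 h0V]
      exact pow_ne_zero n (hS0 0)
    have hTS : ∀ w ∈ V, T w = κ * S w := by
      apply pow_unique hn hVo hVc.isPreconnected hTd (hSd.const_mul κ) ?_ ?_ h0V ?_
      · intro w hw
        rw [mul_pow, hκn, one_mul, hTn w hw, hSn w hw]
      · intro w hw
        refine mul_ne_zero ?_ (hS0 w)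
        intro h3
        rw [h3, zero_pow (by omega)] at hκn
        exact zero_ne_one hκn
      · rw [hκ, div_mul_cancel₀ _ (hS0 0)]
    refine ⟨k, by omega, ?_⟩
    intro w hw
    have hw' : w + 2 * Real.pi * I ∈ V := by
      rw [hVdef] at hw ⊢
      simpa [strip] using hw
    refine ⟨hT0 w hw, ?_⟩
    have h3 := hTS _ hw'
    have h4 := hTS w hw
    simp only [hT] at h3 h4
    rw [h3, h4]
    have h5 : S (w + 2 * Real.pi * I) = Complex.exp (2 * Real.pi * I / n) * S w := by
      simp only [hS]
      rw [← Complex.exp_add]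
      congr 1
      have h6 : q (w + 2 * Real.pi * I) = q w := by
        simp only [hq]
        rw [neg_add, Complex.exp_add, Complex.exp_neg (2 * Real.pi * I), Complex.exp_two_pi_mul_I]
        simp
      have h7 : e (w + 2 * Real.pi * I) = e w := by
        simp only [he]
        rw [Complex.exp_add, Complex.exp_two_pi_mul_I, mul_one]
      simp only [hL]
      rw [h6, h7]
      field_simp
      ring
    rw [h5]
    ring

end Pool.Agent.J4H73.AS
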